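import Pool.Agent.HypSAW98.Final

/-!
# The hyperbolic self-avoiding walk with step length `1/n` has end-to-end distance tending to zero

Definitions from `Pool.Agent.HypSAW98.Sphere` and `Pool.Agent.HypSAW98.Hyp` used in the statement:
`Euc k` is `ℝ ^ (k + 1)`, `Sph k` its unit sphere, `unif k` the uniform probability measure on
`Sph k`, `law k` the law of a sequence of independent uniform directions, `HSp k` is the upper
half-space model of hyperbolic space of dimension `k + 1`, `hdist` the hyperbolic distance and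
`expPt x ε u` the exponential map at `x` applied to `ε` times the unit tangent vector at `x` with
coordinates `x.t • u`.

The first two parts of the statement check that `expPt` is the exponential map: the hyperbolic law
of cosines, and the fact that `expPt x ε` maps the unit sphere onto the geodesic sphere of radius
`ε` around `x`. By the law of cosines the law of `expPt x ε u`, for a uniform direction `u`, is
invariant under the rotations around `x`, so it is the normalised surface measure.
-/

set_option autoImplicit false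

open MeasureTheory Set Filter Topology
open scoped RealInnerProductSpace

namespace Pool.Agent.Results.MP_047546_pr.ZeroSpeed

open Pool.Agent.HypSAW98

variable {k : ℕ}

/-- The chain started at `x₀`, with steps of length `ε` in the directions `ω 0, ω 1, ...`. -/
noncomputable def walk (x₀ : HSp k) (ε : ℝ) (ω : ℕ → Sph k) : ℕ → HSp k
  | 0 => x₀
  | i + 1 => expPt (walk x₀ ε ω i) ε (ω i)

/-- The event `d(x_i, x_j) > c ε` for all `0 ≤ i < j ≤ n`. -/
def Avoid (x₀ : HSp k) (c ε : ℝ) (n : ℕ) : Set (ℕ → Sph k) :=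
  {ω | ∀ i j, i < j → j ≤ n → c * ε < hdist (walk x₀ ε ω i) (walk x₀ ε ω j)}

/-- The conditioned law: independent uniform directions, conditioned on `Avoid x₀ c ε n`. -/
noncomputable def sawLaw (x₀ : HSp k) (c ε : ℝ) (n : ℕ) : Measure (ℕ → Sph k) :=
  ProbabilityTheory.cond (law k) (Avoid x₀ c ε n)

/-- The expectation of `d(x_0, x_n)` under the conditioned law. -/
noncomputable def meanDist (x₀ : HSp k) (c ε : ℝ) (n : ℕ) : ℝ :=
  ∫ ω, hdist (walk x₀ ε ω 0) (walk x₀ ε ω n) ∂(sawLaw x₀ c ε n)

lemma walk_eq (x₀ : HSp k) (ε : ℝ) (ω : ℕ → Sph k) (n : ℕ) :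
    walk x₀ ε ω n = act x₀ (chain ε ω n) := by
  induction n with
  | zero => simp only [walk, chain, act_self_one]
  | succ n ih => simp only [walk, chain, ih, expPt_act]

lemma hdist_walk (x₀ : HSp k) (ε : ℝ) (ω : ℕ → Sph k) (i j : ℕ) :
    hdist (walk x₀ ε ω i) (walk x₀ ε ω j) = hdist (chain ε ω i) (chain ε ω j) := by
  rw [walk_eq, walk_eq, hdist_act]

lemma Avoid_eq (x₀ : HSp k) (c ε : ℝ) (n : ℕ) : Avoid x₀ c ε n = SAH k c ε n := by
  unfold Avoid SAH
  simp only [hdist_walk]

lemma inner_hor_ver (u v : Euc k) : ⟪u, v⟫ = ⟪hor u, hor v⟫ + ver u * ver v := by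
  simp only [PiLp.inner_apply, Fin.sum_univ_castSucc, hor, ver]
  simp only [RCLike.inner_apply, conj_trivial]
  ring

/-- The hyperbolic law of cosines. -/
lemma cosh_hdist_expPt (x : HSp k) (r s : ℝ) (u v : Sph k) :
    Real.cosh (hdist (expPt x r u) (expPt x s v)) =
      Real.cosh r * Real.cosh s - Real.sinh r * Real.sinh s * ⟪(u : Euc k), (v : Euc k)⟫ := by
  rw [cosh_hdist, inner_hor_ver]
  have hr := den_pos r u
  have hs := den_pos s v
  have ht := x.pos
  have hnu := norm_hor_sq u
  have hnv := norm_hor_sq v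
  have e1 : (expPt x r u).a - (expPt x s v).a =
      (x.t * Real.sinh r / den r u) • hor (u : Euc k) -
        (x.t * Real.sinh s / den s v) • hor (v : Euc k) := by
    simp only [expPt]; abel
  have e2 : (expPt x r u).t = x.t / den r u := rfl
  have e3 : (expPt x s v).t = x.t / den s v := rfl
  have e4 : ‖(x.t * Real.sinh r / den r u) • hor (u : Euc k) -
        (x.t * Real.sinh s / den s v) • hor (v : Euc k)‖ ^ 2 =
      (x.t * Real.sinh r / den r u) ^ 2 * (1 - ver (u : Euc k) ^ 2) -
      2 * ((x.t * Real.sinh r / den r u) * (x.t * Real.sinh s / den s v)) *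
        ⟪hor (u : Euc k), hor (v : Euc k)⟫ +
      (x.t * Real.sinh s / den s v) ^ 2 * (1 - ver (v : Euc k) ^ 2) := by
    rw [norm_sub_sq_real, norm_smul, norm_smul, mul_pow, mul_pow, hnu, hnv, Real.norm_eq_abs,
      Real.norm_eq_abs, sq_abs, sq_abs, inner_smul_left, inner_smul_right]
    simp only [conj_trivial]
    ring
  rw [e1, e2, e3, e4]
  have hcr := Real.cosh_sq r
  have hcs := Real.cosh_sq s
  have hDr : den r u = Real.cosh r - Real.sinh r * ver (u : Euc k) := rfl
  have hDs : den s v = Real.cosh s - Real.sinh s * ver (v : Euc k) := rfl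
  generalize ⟪hor (u : Euc k), hor (v : Euc k)⟫ = h
  have k1 : Real.sinh r ^ 2 * (1 - ver (u : Euc k) ^ 2) + 1 =
      den r u * (Real.cosh r + Real.sinh r * ver (u : Euc k)) := by
    rw [hDr]; linear_combination -hcr
  have k2 : Real.sinh s ^ 2 * (1 - ver (v : Euc k) ^ 2) + 1 =
      den s v * (Real.cosh s + Real.sinh s * ver (v : Euc k)) := by
    rw [hDs]; linear_combination -hcs
  have k3 : (Real.cosh r + Real.sinh r * ver (u : Euc k)) * den s v +
      (Real.cosh s + Real.sinh s * ver (v : Euc k)) * den r u =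
      2 * (Real.cosh r * Real.cosh s) -
        2 * (Real.sinh r * Real.sinh s * (ver (u : Euc k) * ver (v : Euc k))) := by
    rw [hDr, hDs]; ring
  generalize hA : Real.cosh r + Real.sinh r * ver (u : Euc k) = A at *
  generalize hB : Real.cosh s + Real.sinh s * ver (v : Euc k) = B at *
  generalize den r u = Dr at *
  generalize den s v = Ds at *
  field_simp
  linear_combination Ds ^ 2 * k1 + Dr ^ 2 * k2 + Dr * Ds * k3

lemma expPt_zero (x : HSp k) (u : Sph k) : expPt x 0 u = x := by
  have : den 0 u = 1 := by simp [den]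
  ext i <;> simp [expPt, this]

/-- The geodesic sphere of radius `ε` is the image of the unit sphere by the exponential map. -/
lemma sphere_eq (x : HSp k) {ε : ℝ} (hε : 0 < ε) :
    {y | hdist x y = ε} = Set.range (expPt x ε) := by
  ext y
  simp only [Set.mem_ofPred_eq, Set.mem_range]
  constructor
  · intro h
    have hx := x.pos
    have hy := y.pos
    have hs : 0 < Real.sinh ε := Real.sinh_pos_iff.2 hε
    have h1 := cosh_hdist x y
    rw [h] at h1
    have h2 : 2 * (x.t * y.t) * Real.cosh ε = ‖y.a - x.a‖ ^ 2 + x.t ^ 2 + y.t ^ 2 := by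
      rw [h1, norm_sub_rev]
      field_simp
      ring
    set w : Euc k := WithLp.toLp 2 (Fin.snoc (α := fun _ => ℝ)
      (fun i : Fin k => (y.a i - x.a i) / (y.t * Real.sinh ε))
      ((Real.cosh ε - x.t / y.t) / Real.sinh ε)) with hw
    have hhor : hor w = (y.t * Real.sinh ε)⁻¹ • (y.a - x.a) := by
      ext i
      simp only [hor, hw, PiLp.smul_apply, PiLp.sub_apply, smul_eq_mul, Fin.snoc_castSucc]
      ring
    have hver : ver w = (Real.cosh ε - x.t / y.t) / Real.sinh ε := by
      simp only [ver, hw, Fin.snoc_last]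
    have hn : ‖w‖ = 1 := by
      have h3 : ‖w‖ ^ 2 = 1 := by
        have h4 := inner_hor_ver w w
        rw [real_inner_self_eq_norm_sq, real_inner_self_eq_norm_sq, hhor, hver, norm_smul,
          mul_pow, Real.norm_eq_abs, sq_abs] at h4
        rw [h4]
        have h5 := Real.cosh_sq ε
        have h6 : ‖y.a - x.a‖ ^ 2 = 2 * (x.t * y.t) * Real.cosh ε - x.t ^ 2 - y.t ^ 2 := by
          linarith
        rw [h6]
        field_simp
        linear_combination (y.t ^ 2) * h5
      have h7 : (‖w‖ - 1) * (‖w‖ + 1) = 0 := by ring_nf; linarith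
      rcases mul_eq_zero.1 h7 with h8 | h8
      · linarith
      · have := norm_nonneg w; linarith
    refine ⟨⟨w, by simp [hn]⟩, ?_⟩
    have hden : den ε (⟨w, by simp [hn]⟩ : Sph k) = x.t / y.t := by
      unfold den
      rw [hver]
      field_simp
      ring
    ext i
    · simp only [expPt, hden, hhor, PiLp.add_apply, PiLp.smul_apply, PiLp.sub_apply, smul_eq_mul]
      field_simp
      ring
    · simp only [expPt, hden]
      field_simp
  · rintro ⟨u, rfl⟩
    have := hdist_expPt x u 0 ε
    rw [expPt_zero, zero_sub, abs_neg, abs_of_pos hε] at this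
    exact this

/-- For every dimension `d = k + 1 ≥ 2`, every `c ∈ (0, 1)` and every base point, the expected
end-to-end distance of the self-avoiding walk with `n` steps of length `1/n` tends to `0`. -/
theorem result :
    (∀ (k : ℕ) (x : HSp k) (r s : ℝ) (u v : Sph k),
      Real.cosh (hdist (expPt x r u) (expPt x s v)) =
        Real.cosh r * Real.cosh s - Real.sinh r * Real.sinh s * ⟪(u : Euc k), (v : Euc k)⟫) ∧
    (∀ (k : ℕ) (x : HSp k) (ε : ℝ), 0 < ε → {y | hdist x y = ε} = Set.range (expPt x ε)) ∧
    ∀ k : ℕ, 1 ≤ k → ∀ (x₀ : HSp k) (c : ℝ), 0 < c → c < 1 →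
      (∀ ε : ℝ, 0 < ε → ∀ n : ℕ, 0 < law k (Avoid x₀ c ε n)) ∧
        Tendsto (fun n : ℕ => meanDist x₀ c (1 / n) n) atTop (𝓝 0) := by
  refine ⟨fun k x r s u v => cosh_hdist_expPt x r s u v, fun k x ε hε => sphere_eq x hε, ?_⟩
  intro k hk x₀ c hc0 hc
  have h := final hk hc0 hc
  refine ⟨fun ε hε n => by rw [Avoid_eq]; exact h.1 ε hε n, ?_⟩
  have : (fun n : ℕ => meanDist x₀ c (1 / n) n) = fun n : ℕ =>
      ∫ ω, hdist (chain (1 / n) ω 0) (chain (1 / n) ω n)
        ∂(ProbabilityTheory.cond (law k) (SAH k c (1 / n) n)) := by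
    funext n
    simp only [meanDist, sawLaw, Avoid_eq, hdist_walk]
  rw [this]
  exact h.2

end Pool.Agent.Results.MP_047546_pr.ZeroSpeed
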